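import Pool.Agent.LCL89.Lcl.Defs

set_option autoImplicit false

/-!
# Borel equivariant maps for free Borel actions of finite groups
-/

namespace Pool.Agent.LCL89

theorem finGroup : StmtFinGroup := by
  intro X _ _ Q _ _ _ hmeas hfree L _ ρ ⟨l0⟩
  classical
  obtain ⟨e, he⟩ := MeasureTheory.exists_measurableEmbedding_real X
  have hmin : ∀ x : X, ∃ q : Q, ∀ r : Q, e (q • x) ≤ e (r • x) := fun x =>
    Finite.exists_min fun q : Q => e (q • x)
  choose m hm using hmin
  have huniq : ∀ (x : X) (q : Q), (∀ r : Q, e (q • x) ≤ e (r • x)) → m x = q := by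
    intro x q hq
    have h1 : e (m x • x) = e (q • x) := le_antisymm (hm x q) (hq (m x))
    have h2 : m x • x = q • x := he.injective h1
    have h3 : (q⁻¹ * m x) • x = x := by rw [mul_smul, h2, inv_smul_smul]
    have h4 := hfree _ x h3
    rw [inv_mul_eq_one] at h4
    exact h4.symm
  have hset : ∀ q : Q, MeasurableSet {x : X | m x = q} := by
    intro q
    have h1 : {x : X | m x = q} = ⋂ r : Q, {x : X | e (q • x) ≤ e (r • x)} := by
      ext x
      simp only [Set.mem_setOf_eq, Set.mem_iInter]
      constructor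
      · rintro rfl r
        exact hm x r
      · intro h
        exact huniq x q h
    rw [h1]
    exact MeasurableSet.iInter fun r =>
      measurableSet_le (he.measurable.comp (hmeas q)) (he.measurable.comp (hmeas r))
  refine ⟨fun x => ρ (m x)⁻¹ l0, ?_, ?_⟩
  · intro l
    have h1 : (fun x => ρ (m x)⁻¹ l0) ⁻¹' {l} = ⋃ q : Q, {x : X | m x = q ∧ ρ q⁻¹ l0 = l} := by
      ext x
      simp only [Set.mem_preimage, Set.mem_singleton_iff, Set.mem_iUnion, Set.mem_setOf_eq]
      constructor
      · intro h
        exact ⟨m x, rfl, h⟩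
      · rintro ⟨q, rfl, h⟩
        exact h
    rw [h1]
    refine MeasurableSet.iUnion fun q => ?_
    by_cases hq : ρ q⁻¹ l0 = l
    · have h2 : {x : X | m x = q ∧ ρ q⁻¹ l0 = l} = {x : X | m x = q} := by
        ext x
        exact ⟨fun h => h.1, fun h => ⟨h, hq⟩⟩
      rw [h2]
      exact hset q
    · have h2 : {x : X | m x = q ∧ ρ q⁻¹ l0 = l} = ∅ := by
        ext x
        exact ⟨fun h => absurd h.2 hq, fun h => absurd h (Set.notMem_empty x)⟩
      rw [h2]
      exact MeasurableSet.empty
  · intro q x
    have h1 : m (q • x) = m x * q⁻¹ := by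
      refine huniq _ _ fun r => ?_
      have h2 := hm x (r * q)
      rw [mul_smul] at h2
      rw [mul_smul, inv_smul_smul]
      exact h2
    simp only [h1, mul_inv_rev, inv_inv, map_mul, Equiv.Perm.coe_mul, Function.comp_apply]

end Pool.Agent.LCL89
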