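import Pool.Agent.LCL89.Grp.Defs

set_option autoImplicit false

/-!
# `Y` is a product of countable discrete spaces
-/

namespace Pool.Agent.LCL89

namespace YHomeoMod

/-- the index type -/
abbrev Ix : Type := Fin 3 ⊕ (ℤ × ℕ) ⊕ List ℕ

/-- the factors -/
def DD (V : Set (List Bool)) : Ix → Type
  | Sum.inl 0 => ℤ
  | Sum.inl 1 => KP V
  | Sum.inl 2 => ℤ
  | Sum.inr (Sum.inl p) => ZMod (pp p.2)
  | Sum.inr (Sum.inr _) => Bool

instance topDD (V : Set (List Bool)) : ∀ i, TopologicalSpace (DD V i)
  | Sum.inl 0 => inferInstanceAs (TopologicalSpace ℤ)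
  | Sum.inl 1 => inferInstanceAs (TopologicalSpace (KP V))
  | Sum.inl 2 => inferInstanceAs (TopologicalSpace ℤ)
  | Sum.inr (Sum.inl p) => inferInstanceAs (TopologicalSpace (ZMod (pp p.2)))
  | Sum.inr (Sum.inr _) => inferInstanceAs (TopologicalSpace Bool)

instance discDD (V : Set (List Bool)) : ∀ i, DiscreteTopology (DD V i)
  | Sum.inl 0 => inferInstanceAs (DiscreteTopology ℤ)
  | Sum.inl 1 => inferInstanceAs (DiscreteTopology (KP V))
  | Sum.inl 2 => inferInstanceAs (DiscreteTopology ℤ)
  | Sum.inr (Sum.inl p) => inferInstanceAs (DiscreteTopology (ZMod (pp p.2)))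
  | Sum.inr (Sum.inr _) => inferInstanceAs (DiscreteTopology Bool)

instance nonDD (V : Set (List Bool)) : ∀ i, Nonempty (DD V i)
  | Sum.inl 0 => inferInstanceAs (Nonempty ℤ)
  | Sum.inl 1 => ⟨(1 : KP V)⟩
  | Sum.inl 2 => inferInstanceAs (Nonempty ℤ)
  | Sum.inr (Sum.inl p) => ⟨(0 : ZMod (pp p.2))⟩
  | Sum.inr (Sum.inr _) => inferInstanceAs (Nonempty Bool)

/-- `K` is countable (finitely generated) -/
lemma countable_KP (V : Set (List Bool)) : Countable (KP V) := by
  have hfin : (genK V).Finite := by
    unfold genK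
    exact Set.toFinite _
  have : Countable (genK V) := hfin.countable.to_subtype
  have h1 : (FreeGroup.lift (Subtype.val : genK V → Equiv.Perm Pt)).range =
      Subgroup.closure (genK V) := by
    rw [FreeGroup.range_lift_eq_closure, Subtype.range_coe]
  have h2 : Countable (Subgroup.closure (genK V)) := by
    rw [← h1]
    exact (MonoidHom.rangeRestrict_surjective
      (FreeGroup.lift (Subtype.val : genK V → Equiv.Perm Pt))).countable
  exact h2

lemma countDD (V : Set (List Bool)) : ∀ i, Countable (DD V i)
  | Sum.inl 0 => inferInstanceAs (Countable ℤ)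
  | Sum.inl 1 => countable_KP V
  | Sum.inl 2 => inferInstanceAs (Countable ℤ)
  | Sum.inr (Sum.inl p) => by
      have : Finite (ZMod (pp p.2)) := inferInstance
      exact (inferInstance : Countable (ZMod (pp p.2)))
  | Sum.inr (Sum.inr _) => inferInstanceAs (Countable Bool)

/-- the homeomorphism, forwards -/
def fwd (V : Set (List Bool)) (y : YY V) : ∀ i, DD V i
  | Sum.inl 0 => y.1.1
  | Sum.inl 1 => y.1.2.1
  | Sum.inl 2 => y.1.2.2.1
  | Sum.inr (Sum.inl p) => y.1.2.2.2 p.1 p.2
  | Sum.inr (Sum.inr l) => y.2 l

/-- the homeomorphism, backwards -/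
def bwd (V : Set (List Bool)) (u : ∀ i, DD V i) : YY V :=
  ((u (Sum.inl 0), u (Sum.inl 1), u (Sum.inl 2), fun i k => u (Sum.inr (Sum.inl (i, k)))),
    fun l => u (Sum.inr (Sum.inr l)))

lemma continuous_fwd (V : Set (List Bool)) : Continuous (fwd V) := by
  refine continuous_pi fun i => ?_
  match i with
  | Sum.inl 0 => exact continuous_fst.comp continuous_fst
  | Sum.inl 1 => exact continuous_fst.comp (continuous_snd.comp continuous_fst)
  | Sum.inl 2 =>
    exact continuous_fst.comp (continuous_snd.comp (continuous_snd.comp continuous_fst))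
  | Sum.inr (Sum.inl p) =>
    exact (continuous_apply p.2).comp ((continuous_apply p.1).comp
      (continuous_snd.comp (continuous_snd.comp (continuous_snd.comp continuous_fst))))
  | Sum.inr (Sum.inr l) => exact (continuous_apply l).comp continuous_snd

lemma continuous_bwd (V : Set (List Bool)) : Continuous (bwd V) := by
  refine Continuous.prodMk (Continuous.prodMk (continuous_apply (Sum.inl 0)) (Continuous.prodMk
    (continuous_apply (Sum.inl 1)) (Continuous.prodMk (continuous_apply (Sum.inl 2)) ?_))) ?_
  · exact continuous_pi fun i => continuous_pi fun k => continuous_apply (Sum.inr (Sum.inl (i, k)))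
  · exact continuous_pi fun l => continuous_apply (Sum.inr (Sum.inr l))

end YHomeoMod

open YHomeoMod in
theorem yHomeo : StmtYHomeo := by
  intro V
  refine ⟨Ix, inferInstance, DD V, countDD V, nonDD V, topDD V, discDD V, ⟨?_⟩⟩
  exact
    { toFun := fwd V
      invFun := bwd V
      left_inv := fun y => rfl
      right_inv := fun u => by
        funext i
        match i with
        | Sum.inl 0 => rfl
        | Sum.inl 1 => rfl
        | Sum.inl 2 => rfl
        | Sum.inr (Sum.inl p) => rfl
        | Sum.inr (Sum.inr l) => rfl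
      continuous_toFun := continuous_fwd V
      continuous_invFun := continuous_bwd V }

end Pool.Agent.LCL89
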